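import Pool.Agent.Lib.MP_254ca6_gt.Relations

/-!
# Comfort, Comfort-Frolik and Rudin-Frolik preorders: the inclusions
-/

open Pool.Agent.Lib.MP_254ca6_gt

namespace Pool.Agent.Results.MP_254ca6_gt.ComfortFrolikInclusions

/-- Answer to Q1: the Comfort-Frolik preorder is contained in the Comfort preorder, properly;
the Rudin-Frolik preorder is not contained in the Comfort-Frolik preorder; and the
reverse inclusion of the latter two holds iff there is no selective ultrafilter. -/
theorem result :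
    (∀ u v : Ultrafilter ℕ, LeCF u v → LeC u v) ∧
    (∃ u v : Ultrafilter ℕ, LeC u v ∧ ¬ LeCF u v) ∧
    (∃ u v : Ultrafilter ℕ, LeRF u v ∧ ¬ LeCF u v) ∧
    ((∀ u v : Ultrafilter ℕ, LeCF u v → LeRF u v) ↔ ¬ ∃ v : Ultrafilter ℕ, IsSelective v) :=
  ⟨fun _ _ h => le_c_of_le_cf h, c_not_cf, rf_not_cf, cf_sub_rf_iff⟩

end Pool.Agent.Results.MP_254ca6_gt.ComfortFrolikInclusions
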