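import Pool.Agent.Lib.MP_254ca6_gt.Relations

/-!
# The Comfort-Frolik preorder is tree-like iff there is no selective ultrafilter
-/

open Pool.Agent.Lib.MP_254ca6_gt

namespace Pool.Agent.Results.MP_254ca6_gt.ComfortFrolikTreeLike

/-- Answer to Q2: the Comfort-Frolik preorder is tree-like iff there is no selective (Ramsey)
ultrafilter on the natural numbers. -/
theorem result :
    (∀ v u₁ u₂ : Ultrafilter ℕ, LeCF u₁ v → LeCF u₂ v → LeCF u₁ u₂ ∨ LeCF u₂ u₁) ↔
      ¬ ∃ v : Ultrafilter ℕ, IsSelective v :=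
  cf_tree_iff

end Pool.Agent.Results.MP_254ca6_gt.ComfortFrolikTreeLike
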